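import Pool.Agent.Helper80.EC_D.Goals

/-!
# MP_ecc237_nt, Part D: DK2
-/

set_option autoImplicit false

open MeasureTheory Filter Topology Set

namespace EC237.PD.PkDK2

/-- `q(k+1)` -/
noncomputable def qk (y : ℝ) (k : ℕ) : ℝ := ∑' v : ℕ, sgn2 (k, v) * QQ y (k, v)

/-- `w(k+1)` -/
noncomputable def wk (y : ℝ) (k : ℕ) : ℝ :=
  Real.pi / 2 * (1 / ((k:ℝ) + 1)) + Real.pi * (qk y k / ((k:ℝ) + 1))

/-- the coefficient -/
noncomputable def cc (k : ℕ) : ℝ := if (k + 1) % 3 = 0 then 2 else -1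

theorem qz_eq (y : ℝ) (r m : ℤ) (k : ℕ) (hm : |(m:ℝ)| = k + 1)
    (he : (m - r) % 2 = 0 ↔ k % 2 = 0) : qz y r m 0 = qk y k := by
  unfold qz qk
  apply tsum_congr
  intro v
  have h1 : epz r m = (-1) ^ k := by
    unfold epz
    by_cases h : k % 2 = 0
    · rw [if_pos (he.mpr h), Even.neg_one_pow (Nat.even_iff.mpr h)]
    · rw [if_neg (fun h' => h (he.mp h')), Odd.neg_one_pow (Nat.odd_iff.mpr (by omega))]
  unfold sgn2 QQ
  rw [h1, hm, pow_zero, mul_one, ← pow_mul]
  simp only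
  rw [mul_comm k (v + 1)]
  congr 2
  ring

theorem V_eq (h6 : EC237.N6) (y : ℝ) (hy : 0 < y) (r m : ℤ) (k : ℕ) (hmr : (m - r) % 3 = 0)
    (hm : |m| = (k:ℤ) + 1) (he : (m - r) % 2 = 0 ↔ k % 2 = 0) : V y r m = ((wk y k : ℝ) : ℂ) := by
  have hm0 : m ≠ 0 := by
    rintro rfl
    simp at hm
    omega
  have hmR : |(m:ℝ)| = (k:ℝ) + 1 := by
    have := congrArg (fun z : ℤ => (z:ℝ)) hm
    push_cast at this
    exact this
  unfold V
  rw [((h6 y hy r m 0 hmr).1 hm0).1, qz_eq y r m k hmR he, hmR]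
  unfold wk
  congr 1
  have hk : (k:ℝ) + 1 ≠ 0 := by positivity
  field_simp

theorem V0 (h6 : EC237.N6) (y : ℝ) (hy : 0 < y) :
    V y 3 0 = ((Real.pi ^ 2 * y / 4 : ℝ) : ℂ) := by
  unfold V
  rw [((h6 y hy 3 0 0 (by norm_num)).2 rfl).1]
  rw [if_neg (by norm_num)]

theorem thm (h6 : EC237.N6) (h8 : EC237.N8) (hL : G_LOG3) (hS : G_SGI) : EC237.PD.G_DK2 := by
  intro y hy
  obtain ⟨hb, hint⟩ := hS y hy
  set b : ℕ × ℕ → ℝ := fun p => c3 p * sgn2 p * QQ y p / ((p.1:ℝ) + 1) with hbdef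
  set S : ℝ := ∑' p, b p with hSdef
  -- sum over `k`
  have hg : HasSum (fun k : ℕ => cc k * (qk y k / ((k:ℝ) + 1))) S := by
    apply hb.hasSum.prod_fiberwise
    intro k
    have h1 : Summable fun v : ℕ => b (k, v) := hb.prod_factor k
    have h2 : ∑' v : ℕ, b (k, v) = cc k * (qk y k / ((k:ℝ) + 1)) := by
      have : ∀ v : ℕ, b (k, v) = (cc k / ((k:ℝ) + 1)) * (sgn2 (k, v) * QQ y (k, v)) := by
        intro v
        simp only [hbdef, c3, cc]
        ring
      rw [tsum_congr this, tsum_mul_left]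
      unfold qk
      ring
    rw [← h2]
    exact h1.hasSum
  -- `q(k)/(k+1) → 0`
  have hs0 : Tendsto (fun k : ℕ => qk y k / ((k:ℝ) + 1)) atTop (𝓝 0) := by
    have h1 := hg.summable.tendsto_atTop_zero
    refine squeeze_zero_norm (a := fun k => ‖cc k * (qk y k / ((k:ℝ) + 1))‖) (fun k => ?_) ?_
    · rw [norm_mul]
      have : 1 ≤ ‖cc k‖ := by
        unfold cc
        split_ifs <;> norm_num
      nlinarith [norm_nonneg (qk y k / ((k:ℝ) + 1))]
    · simpa using h1.norm
  have hw0 : Tendsto (wk y) atTop (𝓝 0) := by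
    have h1 : Tendsto (fun k : ℕ => 1 / ((k:ℝ) + 1)) atTop (𝓝 0) :=
      tendsto_one_div_add_atTop_nhds_zero_nat
    have h2 := (h1.const_mul (Real.pi / 2)).add (hs0.const_mul Real.pi)
    rw [mul_zero, mul_zero, add_zero] at h2
    exact h2
  -- the function
  set f : ℤ → ℂ := fun j => V y 1 (1 + 3 * j) - V y 3 (3 * j) with hf
  let u : ℕ → ℝ := fun n => if n = 0 then Real.pi ^ 2 * y / 4 else wk y (3 * n - 1)
  have hu : ∀ n : ℕ, V y 3 (3 * (n:ℤ)) = ((u n : ℝ) : ℂ) := by
    intro n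
    by_cases hn : n = 0
    · subst hn
      simp only [u, if_pos]
      simpa using V0 h6 y hy
    · simp only [u, if_neg hn]
      exact V_eq h6 y hy 3 _ (3 * n - 1) (by omega) (by
        rw [abs_of_nonneg (by positivity)]
        omega) (by omega)
  have hu0 : Tendsto u atTop (𝓝 0) := by
    have h1 : Tendsto (fun n : ℕ => wk y (3 * n - 1)) atTop (𝓝 0) := by
      apply hw0.comp
      apply tendsto_atTop_mono (f := fun n : ℕ => n - 1)
      · intro n; omega
      · exact tendsto_sub_atTop_nat 1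
    refine h1.congr' ?_
    filter_upwards [eventually_gt_atTop 0] with n hn
    simp only [u, if_neg (by omega : n ≠ 0)]
  have hfn : ∀ n : ℕ, f n = ((wk y (3 * n) - u n : ℝ) : ℂ) := by
    intro n
    simp only [hf]
    rw [hu n, V_eq h6 y hy 1 _ (3 * n) (by omega) (by
        rw [abs_of_nonneg (by positivity)]
        push_cast; ring) (by omega)]
    push_cast; ring
  have hfm : ∀ n : ℕ, f (-((n:ℤ) + 1)) = ((wk y (3 * n + 1) - wk y (3 * n + 2) : ℝ) : ℂ) := by
    intro n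
    simp only [hf]
    rw [V_eq h6 y hy 1 _ (3 * n + 1) (by omega) (by
        rw [abs_of_nonpos (by omega)]
        push_cast; ring) (by omega),
      V_eq h6 y hy 3 _ (3 * n + 2) (by omega) (by
        rw [abs_of_nonpos (by omega)]
        push_cast; ring) (by omega)]
    push_cast; ring
  -- summability
  obtain ⟨C, hC, h8'⟩ := h8 y hy
  have hbound : ∀ j : ℤ, ‖f j‖ ≤ 2 * C * (1 / (1 + |(j:ℝ)|) ^ 2) := by
    intro j
    have h1 := h8' 1 (1 + 3 * j) 0 3 (3 * j) 0 (by norm_num) (by norm_num) (by omega) (by omega)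
    refine h1.trans ?_
    have e1 : |(|((1 + 3 * j : ℤ) : ℝ)| - |((3 * j : ℤ) : ℝ)|)| ≤ 1 := by
      refine (abs_abs_sub_abs_le _ _).trans ?_
      push_cast
      rw [show (1:ℝ) + 3 * j - 3 * j = 1 from by ring]
      norm_num
    have e2 : 1 + |(j:ℝ)| ≤ 1 + |((1 + 3 * j : ℤ) : ℝ)| := by
      have : |j| ≤ |1 + 3 * j| := by
        rcases le_or_gt 0 j with h | h
        · rw [abs_of_nonneg h, abs_of_nonneg (by omega)]; omega
        · rw [abs_of_neg h, abs_of_neg (by omega)]; omega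
      have h2 : ((|j| : ℤ) : ℝ) ≤ ((|1 + 3 * j| : ℤ) : ℝ) := by exact_mod_cast this
      rw [Int.cast_abs, Int.cast_abs] at h2
      linarith
    have e3 : 1 + |(j:ℝ)| ≤ 1 + |((3 * j : ℤ) : ℝ)| := by
      push_cast
      rw [abs_mul]
      have : |(3:ℝ)| = 3 := by norm_num
      rw [this]
      nlinarith [abs_nonneg (j:ℝ)]
    have hj : 0 < 1 + |(j:ℝ)| := by positivity
    calc C * (1 + |(|((1 + 3 * j : ℤ) : ℝ)| - |((3 * j : ℤ) : ℝ)|)|) /
          ((1 + |((1 + 3 * j : ℤ) : ℝ)|) * (1 + |((3 * j : ℤ) : ℝ)|))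
        ≤ C * 2 / ((1 + |(j:ℝ)|) * (1 + |(j:ℝ)|)) := by
          apply div_le_div₀ (by positivity) _ (by positivity) _
          · apply mul_le_mul_of_nonneg_left _ hC.le
            linarith
          · exact mul_le_mul e2 e3 hj.le (by positivity)
      _ = 2 * C * (1 / (1 + |(j:ℝ)|) ^ 2) := by
          field_simp
  have hsq : Summable fun n : ℕ => 1 / ((n:ℝ) + 1) ^ 2 := by
    have h1 := (summable_nat_add_iff (f := fun n : ℕ => 1 / (n:ℝ) ^ 2) 1).mpr
      (Real.summable_one_div_nat_pow.mpr (by norm_num))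
    simpa using h1
  have hs1 : Summable fun n : ℕ => f n := by
    refine Summable.of_norm_bounded (g := fun n : ℕ => 2 * C * (1 / ((n:ℝ) + 1) ^ 2))
      (hsq.mul_left _) (fun n => ?_)
    have h1 := hbound n
    have h2 : |(((n:ℤ)) : ℝ)| = n := by simp
    rw [h2, add_comm (1:ℝ)] at h1
    exact h1
  have hs2 : Summable fun n : ℕ => f (-((n:ℤ) + 1)) := by
    refine Summable.of_norm_bounded (g := fun n : ℕ => 2 * C * (1 / ((n:ℝ) + 1) ^ 2))
      (hsq.mul_left _) (fun n => ?_)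
    have h1 := hbound (-((n:ℤ) + 1))
    have h2 : |((-((n:ℤ) + 1) : ℤ) : ℝ)| = n + 1 := by
      push_cast
      rw [abs_neg, abs_of_nonneg (by positivity)]
    rw [h2] at h1
    refine h1.trans ?_
    have hn : (0:ℝ) < (n:ℝ) + 1 := by positivity
    have : 1 / (1 + ((n:ℝ) + 1)) ^ 2 ≤ 1 / ((n:ℝ) + 1) ^ 2 := by
      apply one_div_le_one_div_of_le (by positivity)
      apply pow_le_pow_left₀ hn.le
      linarith
    nlinarith
  have hsum := HasSum.of_nat_of_neg_add_one hs1.hasSum hs2.hasSum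
  rw [← hs1.tsum_add hs2] at hsum
  -- value
  have hval : HasSum (fun n : ℕ => f n + f (-((n:ℤ) + 1))) ((-(sg y) : ℝ) : ℂ) := by
    rw [(hs1.add hs2).hasSum_iff_tendsto_nat]
    have hpart : ∀ N : ℕ, ∑ n ∈ Finset.range N, (f n + f (-((n:ℤ) + 1))) =
        ((Real.pi / 2 * (∑ n ∈ Finset.range N, (1 / (3 * (n:ℝ) + 1) + 1 / (3 * (n:ℝ) + 2) -
          2 / (3 * (n:ℝ) + 3))) - Real.pi * (∑ k ∈ Finset.range (3 * N),
          cc k * (qk y k / ((k:ℝ) + 1))) + u N - Real.pi ^ 2 * y / 4 : ℝ) : ℂ) := by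
      intro N
      induction N with
      | zero => simp [u]
      | succ N ih =>
        rw [Finset.sum_range_succ, ih, Finset.sum_range_succ,
          show 3 * (N + 1) = 3 * N + 1 + 1 + 1 from by ring, Finset.sum_range_succ,
          Finset.sum_range_succ, Finset.sum_range_succ, hfn, hfm, ← Complex.ofReal_add,
          ← Complex.ofReal_add]
        congr 1
        have c1 : cc (3 * N) = -1 := by unfold cc; rw [if_neg (by omega)]
        have c2 : cc (3 * N + 1) = -1 := by unfold cc; rw [if_neg (by omega)]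
        have c3 : cc (3 * N + 1 + 1) = 2 := by unfold cc; rw [if_pos (by omega)]
        have hu1 : u (N + 1) = wk y (3 * N + 2) := by
          simp only [u, if_neg (Nat.succ_ne_zero N)]
          congr 1
        rw [c1, c2, c3, hu1]
        unfold wk
        push_cast
        ring
    have hlim : Tendsto (fun N : ℕ => Real.pi / 2 * (∑ n ∈ Finset.range N,
        (1 / (3 * (n:ℝ) + 1) + 1 / (3 * (n:ℝ) + 2) - 2 / (3 * (n:ℝ) + 3))) -
        Real.pi * (∑ k ∈ Finset.range (3 * N), cc k * (qk y k / ((k:ℝ) + 1))) + u N -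
        Real.pi ^ 2 * y / 4) atTop (𝓝 (-(sg y))) := by
      have h1 : Tendsto (fun N : ℕ => 3 * N) atTop atTop :=
        tendsto_id.const_mul_atTop' (by norm_num)
      have h2 := (((hL.tendsto_sum_nat.const_mul (Real.pi / 2)).sub
        ((hg.tendsto_sum_nat.comp h1).const_mul Real.pi)).add hu0).sub_const
          (Real.pi ^ 2 * y / 4)
      have h3 : -(sg y) = Real.pi / 2 * Real.log 3 - Real.pi * S + 0 - Real.pi ^ 2 * y / 4 := by
        unfold sg
        rw [hint]
        ring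
      rw [h3]
      exact h2
    have := (Complex.continuous_ofReal.tendsto _).comp hlim
    refine this.congr (fun N => ?_)
    exact (hpart N).symm
  rw [hval.tsum_eq] at hsum
  exact hsum

end EC237.PD.PkDK2
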